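import Pool.Agent.MP_2b113a_an.H33.LieC

/-!
A longest weight and a second weight give the plane or the symmetric square configuration.
-/

namespace Pool.Agent.MP_2b113a_an.H1

open Pool.Agent.MP_2b113a_an.H33

variable {L : Type} [LieRing L] [LieAlgebra ℚ L] [Module.Finite ℚ L] [LieAlgebra.IsSimple ℚ L]

theorem eq_zero_of_kil_S (τ : Tor L) {s : τ.S} (h : kil (s : L) s = 0) : s = 0 := by
  by_contra h0
  exact ((τ.diag' s).kil_pos (by simpa using h0)).ne' h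

theorem exists_tv (τ : Tor L) :
    ∃ tv : Module.Dual ℚ τ.S →ₗ[ℚ] τ.S, ∀ β (s : τ.S), kil (tv β : L) s = β s := by
  let B : LinearMap.BilinForm ℚ τ.S := (killingForm ℚ L).restrict τ.S
  have hB : B.Nondegenerate :=
    ⟨fun s hs => eq_zero_of_kil_S τ (hs s), fun s hs => eq_zero_of_kil_S τ (hs s)⟩
  exact ⟨(B.toDual hB).symm.toLinearMap, fun β s => B.apply_toDual_symm_apply (hB := hB) β s⟩

/-- The inner product on the weights. -/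
structure Ip (τ : Tor L) where
  ip : Module.Dual ℚ τ.S →ₗ[ℚ] Module.Dual ℚ τ.S →ₗ[ℚ] ℚ
  symm : ∀ β γ, ip β γ = ip γ β
  pos : ∀ β, β ≠ 0 → 0 < ip β β
  tri : ∀ α (H : τ.S) (X Y : L), X ∈ τ.wt α → Y ∈ τ.wt (-α) → IsSl2Triple (H : L) X Y →
    ∀ β, β H * ip α α = 2 * ip β α
  irr : ∀ θ, θ ≠ 0 → ∃ α, τ.wt α ≠ ⊥ ∧ ip θ α ≠ 0 ∧ ∀ c : ℚ, α ≠ c • θ

omit [Module.Finite ℚ L] [LieAlgebra.IsSimple ℚ L] in
theorem apply_H (τ : Tor L) {α : Module.Dual ℚ τ.S} {H : τ.S} {X Y : L} (hX : X ∈ τ.wt α)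
    (t : IsSl2Triple (H : L) X Y) : α H = 2 := by
  have h1 := τ.mem_wt.1 hX H
  rw [t.lie_h_e_smul ℚ] at h1
  exact (smul_left_injective ℚ t.e_ne_zero h1).symm

theorem exists_ip (τ : Tor L) : Nonempty (Ip τ) := by
  obtain ⟨tv, htv⟩ := exists_tv τ
  let ip : Module.Dual ℚ τ.S →ₗ[ℚ] Module.Dual ℚ τ.S →ₗ[ℚ] ℚ :=
    LinearMap.mk₂ ℚ (fun β γ => β (tv γ)) (by simp) (by simp) (by simp) (by simp)
  have hip : ∀ β γ, ip β γ = β (tv γ) := fun _ _ => rfl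
  have hs : ∀ β γ, ip β γ = ip γ β := fun β γ => by
    rw [hip, hip, ← htv, ← htv γ, kil_comm]
  have hne : ∀ β, β ≠ 0 → tv β ≠ 0 := fun β hβ h => hβ (LinearMap.ext fun s => by
    rw [← htv, h]; simp [kil])
  refine ⟨⟨ip, hs, fun β hβ => ?_, fun α H X Y hX hY t β => ?_, fun θ hθ => ?_⟩⟩
  · rw [hip, ← htv]
    exact (τ.diag' _).kil_pos (by simpa using hne β hβ)
  · have h1 : ∀ s : τ.S, kil (H : L) s = kil X Y * α s := fun s => by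
      rw [← t.lie_e_f, kil_lie, ← lie_skew Y, τ.mem_wt.1 hY s]
      simp [kil, mul_comm]
    have h2 : H = kil X Y • tv α := by
      rw [← sub_eq_zero]
      apply eq_zero_of_kil_S τ
      generalize hs : H - kil X Y • tv α = s
      conv_lhs => enter [1]; rw [← hs]
      have h3 := h1 s
      have h4 := htv α s
      simp only [kil] at h3 h4 ⊢
      simp [h3, h4]
    have h3 : ∀ γ : Module.Dual ℚ τ.S, γ H = kil X Y * ip γ α := fun γ => by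
      rw [hip]; conv_lhs => rw [h2]
      simp
    have h4 := apply_H τ hX t
    rw [h3] at h4
    rw [h3 β, ← h4]; ring
  · by_contra hcon
    push Not at hcon
    obtain ⟨s, hs0, hθs⟩ := τ.exists_ker θ
    let k : LieSubalgebra ℚ L :=
      { toSubmodule := eig (tv θ : L) 0
        lie_mem' := fun {x y} hx hy => by simpa using lie_mem_eig hx hy }
    have hk : k = ⊤ := τ.star hs0 k fun β hβ => by
      by_cases hb : τ.wt β = ⊥
      · simp [hb]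
      have h1 : β (tv θ) = 0 := by
        rw [← hip, hs]
        by_contra h2
        obtain ⟨c, rfl⟩ := hcon β hb h2
        simp [hθs] at hβ
      have h3 := τ.wt_le_eig β (tv θ)
      rw [h1] at h3
      exact h3
    refine hne θ hθ (Subtype.ext (eq_zero_of_lie fun y => ?_))
    have : y ∈ k := hk ▸ LieSubalgebra.mem_top y
    exact mem_eig_zero.1 this

omit [Module.Finite ℚ L] [LieAlgebra.IsSimple ℚ L] in
theorem lie_down (τ : Tor L) {β : Module.Dual ℚ τ.S} {H : τ.S} {X Y w : L}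
    (t : IsSl2Triple (H : L) X Y) (hw : w ∈ τ.wt β) :
    ⁅X, ⁅Y, w⁆⁆ = β H • w + ⁅Y, ⁅X, w⁆⁆ := by
  rw [leibniz_lie, t.lie_e_f, τ.mem_wt.1 hw H]

section Core

variable {τ : Tor L} (P : Ip τ) {θ : Module.Dual ℚ τ.S}

omit [Module.Finite ℚ L] [LieAlgebra.IsSimple ℚ L] in
theorem kill (hmax : ∀ γ, τ.wt γ ≠ ⊥ → P.ip γ γ ≤ P.ip θ θ) {γ : Module.Dual ℚ τ.S} {x : L}
    (hx : x ∈ τ.wt γ) (h : P.ip θ θ < P.ip γ γ) : x = 0 := by
  by_contra h0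
  refine absurd (hmax γ fun hb => h0 ?_) (not_le.2 h)
  simpa [hb] using hx

omit [Module.Finite ℚ L] [LieAlgebra.IsSimple ℚ L] in
theorem ne_of_pos {γ : Module.Dual ℚ τ.S} (h : 0 < P.ip γ γ) : γ ≠ 0 := by
  rintro rfl
  simp at h

theorem onto (ht : TripleStmt) {γ β : Module.Dual ℚ τ.S} {v y : L} (hv : v ∈ τ.wt γ)
    (hv0 : v ≠ 0) (hγ : 0 < P.ip γ γ) (hy : y ∈ τ.wt β) (h : 0 < P.ip β γ) :
    ∃ Z, ⁅v, Z⁆ = y := by
  obtain ⟨H, Y, hY, t, -, h1, -⟩ := ht L τ γ v hv hv0 (ne_of_pos P hγ)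
  have h2 := P.tri γ H v Y hv hY t β
  have h3 : 0 < β H := by
    by_contra h4
    push Not at h4
    nlinarith [mul_nonneg (neg_nonneg.2 h4) hγ.le]
  obtain ⟨z, -, hz⟩ := h1 β h3 y hy
  exact ⟨z, hz⟩

theorem conf_one (ht : TripleStmt) (hmax : ∀ γ, τ.wt γ ≠ ⊥ → P.ip γ γ ≤ P.ip θ θ)
    {α : Module.Dual ℚ τ.S} (hα : τ.wt α ≠ ⊥) (ha : 0 < P.ip α α) (h1 : P.ip θ θ = P.ip α α)
    (h2 : 2 * P.ip θ α = P.ip α α) {v₀ : L} (hv : v₀ ∈ τ.wt θ) (hv0 : v₀ ≠ 0) : Conf v₀ := by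
  have hs := P.symm α θ
  obtain ⟨X, hX, hX0⟩ := Submodule.exists_mem_ne_zero_of_ne_bot hα
  obtain ⟨H, Y, hY, t, -⟩ := ht L τ α X hX hX0 (ne_of_pos P ha)
  have hθH : θ H = 1 := by
    have := P.tri α H X Y hX hY t θ
    rw [h2] at this
    exact mul_right_cancel₀ ha.ne' (by rw [this, one_mul])
  have hv1 := τ.lie_mem_wt hY hv
  have hX0' : ⁅X, v₀⁆ = 0 := kill P hmax (τ.lie_mem_wt hX hv) (by simp; linarith)
  have hX1 : ⁅X, ⁅Y, v₀⁆⁆ = v₀ := by rw [lie_down τ t hv, hθH, hX0']; simp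
  have hn1 : 0 < P.ip (-α + θ) (-α + θ) := by simp; linarith
  refine ⟨X, Y, t.lie_e_f ▸ τ.diag' H, t.lie_e_f ▸ t.h_ne_zero,
    onto P ht hv hv0 (by linarith) hX (by linarith), Or.inl ⟨⁅Y, v₀⁆, ⟨?_, ?_, ?_, ?_, ?_, hX0',
      hX1, rfl, ?_⟩, onto P ht hv1 ?_ hn1 hY (by simp; linarith)⟩⟩
  · exact τ.nil_of_mem_wt (ne_of_pos P ha) hX
  · exact τ.nil_of_mem_wt (neg_ne_zero.2 (ne_of_pos P ha)) hY
  · exact τ.nil_of_mem_wt (ne_of_pos P (by linarith)) hv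
  · exact τ.nil_of_mem_wt (ne_of_pos P hn1) hv1
  · exact kill P hmax (τ.lie_mem_wt hv hv1) (by simp; linarith)
  · exact kill P hmax (τ.lie_mem_wt hY hv1) (by simp; linarith)
  · intro h
    rw [h, lie_zero] at hX1
    exact hv0 hX1.symm

theorem conf_two (ht : TripleStmt) (hmax : ∀ γ, τ.wt γ ≠ ⊥ → P.ip γ γ ≤ P.ip θ θ)
    {α : Module.Dual ℚ τ.S} (hα : τ.wt α ≠ ⊥) (ha : 0 < P.ip α α)
    (h1 : P.ip θ θ = 2 * P.ip α α) (h2 : P.ip θ α = P.ip α α) {v₀ : L} (hv : v₀ ∈ τ.wt θ)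
    (hv0 : v₀ ≠ 0) : Conf v₀ := by
  have hs := P.symm α θ
  obtain ⟨X, hX, hX0⟩ := Submodule.exists_mem_ne_zero_of_ne_bot hα
  obtain ⟨H, Y, hY, t, -⟩ := ht L τ α X hX hX0 (ne_of_pos P ha)
  have hθH : θ H = 2 := by
    have := P.tri α H X Y hX hY t θ
    rw [h2] at this
    exact mul_right_cancel₀ ha.ne' this
  have hαH := apply_H τ hX t
  have hv1 := τ.lie_mem_wt hY hv
  have hv2 := (τ.wt _).smul_mem (1 / 2 : ℚ) (τ.lie_mem_wt hY hv1)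
  have hX0' : ⁅X, v₀⁆ = 0 := kill P hmax (τ.lie_mem_wt hX hv) (by simp; linarith)
  have hX1 : ⁅X, ⁅Y, v₀⁆⁆ = (2 : ℚ) • v₀ := by rw [lie_down τ t hv, hθH, hX0']; simp
  have hX2 : ⁅X, (1 / 2 : ℚ) • ⁅Y, ⁅Y, v₀⁆⁆⁆ = ⁅Y, v₀⁆ := by
    rw [lie_smul, lie_down τ t hv1, hX1, LinearMap.add_apply, LinearMap.neg_apply, hθH, hαH,
      lie_smul]
    module
  have hn1 : 0 < P.ip (-α + θ) (-α + θ) := by simp; linarith
  have hn2 : 0 < P.ip (-α + (-α + θ)) (-α + (-α + θ)) := by simp; linarith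
  refine ⟨X, Y, t.lie_e_f ▸ τ.diag' H, t.lie_e_f ▸ t.h_ne_zero,
    onto P ht hv hv0 (by linarith) hX (by linarith), Or.inr ⟨⁅Y, v₀⁆,
      (1 / 2 : ℚ) • ⁅Y, ⁅Y, v₀⁆⁆, ⟨?_, ?_, ?_, ?_, ?_, ?_, ?_, ?_, hX0', hX1, hX2, rfl, ?_, ?_⟩,
      onto P ht hv2 ?_ hn2 hY (by simp; linarith)⟩⟩
  · exact τ.nil_of_mem_wt (ne_of_pos P ha) hX
  · exact τ.nil_of_mem_wt (neg_ne_zero.2 (ne_of_pos P ha)) hY
  · exact τ.nil_of_mem_wt (ne_of_pos P (by linarith)) hv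
  · exact τ.nil_of_mem_wt (ne_of_pos P hn1) hv1
  · exact τ.nil_of_mem_wt (ne_of_pos P hn2) hv2
  · exact kill P hmax (τ.lie_mem_wt hv hv1) (by simp; linarith)
  · exact kill P hmax (τ.lie_mem_wt hv hv2) (by simp; linarith)
  · exact kill P hmax (τ.lie_mem_wt hv1 hv2) (by simp; linarith)
  · module
  · exact kill P hmax (τ.lie_mem_wt hY hv2) (by simp; linarith)
  · intro h
    rw [h, lie_zero] at hX2
    rw [← hX2, lie_zero] at hX1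
    exact hv0 ((smul_eq_zero.1 hX1.symm).resolve_left two_ne_zero)

theorem three_wt (ht : TripleStmt) (hmax : ∀ γ, τ.wt γ ≠ ⊥ → P.ip γ γ ≤ P.ip θ θ)
    {α : Module.Dual ℚ τ.S} (hα : τ.wt α ≠ ⊥) (ha : 0 < P.ip α α)
    (h2 : 2 * P.ip θ α = 3 * P.ip α α) {v₀ : L} (hv : v₀ ∈ τ.wt θ) (hv0 : v₀ ≠ 0) :
    τ.wt (-α + (-α + (-α + θ))) ≠ ⊥ := by
  have hs := P.symm α θ
  obtain ⟨X, hX, hX0⟩ := Submodule.exists_mem_ne_zero_of_ne_bot hα
  obtain ⟨H, Y, hY, t, -⟩ := ht L τ α X hX hX0 (ne_of_pos P ha)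
  have hθH : θ H = 3 := by
    have := P.tri α H X Y hX hY t θ
    rw [h2] at this
    exact mul_right_cancel₀ ha.ne' this
  have hαH := apply_H τ hX t
  have hv1 := τ.lie_mem_wt hY hv
  have hv2 := τ.lie_mem_wt hY hv1
  have hv3 := τ.lie_mem_wt hY hv2
  have hX0' : ⁅X, v₀⁆ = 0 := kill P hmax (τ.lie_mem_wt hX hv) (by simp; linarith)
  have hX1 : ⁅X, ⁅Y, v₀⁆⁆ = (3 : ℚ) • v₀ := by rw [lie_down τ t hv, hθH, hX0']; simp
  have hX2 : ⁅X, ⁅Y, ⁅Y, v₀⁆⁆⁆ = (4 : ℚ) • ⁅Y, v₀⁆ := by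
    rw [lie_down τ t hv1, hX1, LinearMap.add_apply, LinearMap.neg_apply, hθH, hαH, lie_smul]
    module
  have hX3 : ⁅X, ⁅Y, ⁅Y, ⁅Y, v₀⁆⁆⁆⁆ = (3 : ℚ) • ⁅Y, ⁅Y, v₀⁆⁆ := by
    rw [lie_down τ t hv2, hX2]
    simp only [LinearMap.add_apply, LinearMap.neg_apply, hθH, hαH, lie_smul]
    module
  intro hb
  rw [hb, Submodule.mem_bot] at hv3
  rw [hv3, lie_zero] at hX3
  rw [(smul_eq_zero.1 hX3.symm).resolve_left (by norm_num), lie_zero] at hX2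
  rw [(smul_eq_zero.1 hX2.symm).resolve_left (by norm_num), lie_zero] at hX1
  exact hv0 ((smul_eq_zero.1 hX1.symm).resolve_left (by norm_num))

theorem conf_pos (ht : TripleStmt) (hmax : ∀ γ, τ.wt γ ≠ ⊥ → P.ip γ γ ≤ P.ip θ θ) (hθ : θ ≠ 0)
    {α : Module.Dual ℚ τ.S} (hα : τ.wt α ≠ ⊥) (hp : 0 < P.ip θ α) (hc : ∀ c : ℚ, α ≠ c • θ)
    {v₀ : L} (hv : v₀ ∈ τ.wt θ) (hv0 : v₀ ≠ 0) : Conf v₀ := by
  have hs := P.symm α θ
  have hα0 : α ≠ 0 := by simpa using hc 0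
  have ha := P.pos α hα0
  have htt := P.pos θ hθ
  have hle := hmax α hα
  have hθb : τ.wt θ ≠ ⊥ := fun hb => hv0 (by simpa [hb] using hv)
  have hcs : P.ip θ α ^ 2 < P.ip α α * P.ip θ θ := by
    have h1 := P.pos (P.ip θ θ • α - P.ip θ α • θ) fun h => hc (P.ip θ α / P.ip θ θ) (by
      rw [sub_eq_zero] at h
      rw [div_eq_inv_mul, mul_smul, ← h, smul_smul, inv_mul_cancel₀ htt.ne', one_smul])
    simp only [map_sub, map_smul, LinearMap.sub_apply, LinearMap.smul_apply, smul_eq_mul,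
      hs] at h1
    by_contra h2
    push Not at h2
    nlinarith [mul_nonneg (sub_nonneg.2 h2) htt.le]
  obtain ⟨k, hk⟩ : ∃ k : ℤ, k * P.ip α α = 2 * P.ip θ α := by
    obtain ⟨X, hX, hX0⟩ := Submodule.exists_mem_ne_zero_of_ne_bot hα
    obtain ⟨H, Y, hY, t, h1, -⟩ := ht L τ α X hX hX0 hα0
    obtain ⟨k, hk⟩ := h1 θ hθb
    exact ⟨k, hk ▸ P.tri α H X Y hX hY t θ⟩
  obtain ⟨k', hk'⟩ : ∃ k : ℤ, k * P.ip θ θ = 2 * P.ip θ α := by
    obtain ⟨H, Y, hY, t, h1, -⟩ := ht L τ θ v₀ hv hv0 hθ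
    obtain ⟨k, hk⟩ := h1 α hα
    exact ⟨k, hs ▸ hk ▸ P.tri θ H v₀ Y hv hY t α⟩
  have hk'0 : 0 < k' := by
    have : (0 : ℚ) < k' := by
      by_contra h
      push Not at h
      nlinarith [mul_nonneg (neg_nonneg.2 h) htt.le]
    exact_mod_cast this
  have hkk : k' ≤ k := by
    have h0 : (0 : ℚ) < k' := by exact_mod_cast hk'0
    have : (k' : ℚ) ≤ k := by
      by_contra h
      push Not at h
      nlinarith [mul_pos (sub_pos.2 h) ha, mul_nonneg h0.le (sub_nonneg.2 hle)]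
    exact_mod_cast this
  have h4 : k * k' < 4 := by
    have h0 : ((k : ℚ) * k') * (P.ip α α * P.ip θ θ) = 4 * P.ip θ α ^ 2 := by
      calc _ = (k * P.ip α α) * (k' * P.ip θ θ) := by ring
        _ = _ := by rw [hk, hk']; ring
    have : (k : ℚ) * k' < 4 := by
      by_contra h
      push Not at h
      nlinarith [mul_nonneg (sub_nonneg.2 h) (mul_pos ha htt).le]
    exact_mod_cast this
  have h1 : k' = 1 := by nlinarith
  subst h1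
  have h3 : k = 1 ∨ k = 2 ∨ k = 3 := by omega
  push_cast at hk'
  rcases h3 with rfl | rfl | rfl <;> push_cast at hk
  · exact conf_one P ht hmax hα ha (by linarith) (by linarith) hv hv0
  · exact conf_two P ht hmax hα ha (by linarith) (by linarith) hv hv0
  · refine conf_one P ht hmax (τ.wt_neg_ne (three_wt P ht hmax hα ha (by linarith) hv hv0))
      ?_ ?_ ?_ hv hv0
    all_goals simp; linarith

end Core

theorem conf (ht : TripleStmt) : ConfStmt := by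
  intro L _ _ _ _ τ
  obtain ⟨P⟩ := exists_ip τ
  obtain ⟨s, hs, -⟩ := τ.exists_ker 0
  obtain ⟨β, hβs, hβ⟩ := τ.exists_wt hs
  obtain ⟨θ, hθb, hmax⟩ := Set.exists_max_image {γ | τ.wt γ ≠ ⊥} (fun γ => P.ip γ γ)
    τ.finite_wt ⟨β, hβ⟩
  have hβ0 : β ≠ 0 := by
    rintro rfl
    simp at hβs
  have hθ : θ ≠ 0 := ne_of_pos P ((P.pos β hβ0).trans_le (hmax β hβ))
  obtain ⟨v₀, hv, hv0⟩ := Submodule.exists_mem_ne_zero_of_ne_bot hθb
  refine ⟨θ, hθ, v₀, hv, hv0, ?_⟩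
  obtain ⟨α, hα, hp, hc⟩ := P.irr θ hθ
  rcases lt_or_gt_of_ne hp with h | h
  · refine conf_pos P ht hmax hθ (τ.wt_neg_ne hα) (by simpa using h) (fun c hc' => ?_) hv hv0
    exact hc (-c) (by rw [neg_smul, ← hc', neg_neg])
  · exact conf_pos P ht hmax hθ hα h hc hv hv0

end Pool.Agent.MP_2b113a_an.H1
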